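import Pool.Agent.helper16.CVL.Spec

/-!
# Project cv: (MP_70a088_an, rational maps), block CVL, row BLC: `bl` and `gr` converge
-/

set_option autoImplicit false

open Complex Metric Set Filter Topology MeasureTheory
open HY (UD T S hd UN RM)
open RT (UC TD rm lf cr pd bl gr hdf Lf UP)

noncomputable section

namespace CVL

theorem BLC (hBLL : BLL_stmt) (hBLU : BLU_stmt) (hDIC : DIC_stmt) (hTDL : TDL_stmt) (hQFN : RT.QFN_stmt) (hTDF : RT.TDF_stmt) : BLC_stmt := by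
  intro s U W x χ hF ζ ζ' ζ₀ hζ₀ ζ₀' hζ₀' hζ hζ'
  obtain ⟨hTD, -, -⟩ := hTDL s U W x χ hF
  obtain ⟨hin, -, hpd⟩ := hDIC s U W x χ hF ζ ζ₀ hζ₀ hζ
  obtain ⟨hin', -, -⟩ := hDIC s U W x χ hF ζ' ζ₀' hζ₀' hζ'
  rcases eq_or_ne ζ₀ ζ₀' with h | h
  · subst h
    refine ⟨?_, fun h => absurd rfl h⟩
    have h1 := hpd ζ' ζ₀ hζ₀' hζ'
    have h2 : pd (χ '' UD) ζ₀ ζ₀ = 0 := (hTDF s _ hTD ζ₀ hζ₀).2.2.2.1
    have h3 : bl (χ '' UD) ζ₀ ζ₀ = 0 := by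
      unfold RT.bl
      rw [if_pos ⟨hζ₀, hζ₀⟩, if_pos rfl]
    rw [h2] at h1
    rw [h3]
    refine tendsto_of_tendsto_of_tendsto_of_le_of_le' tendsto_const_nhds h1 ?_ ?_
    · filter_upwards [hF.td] with j hj
      exact ((hQFN s (W j) hF.s0 hj.1).2 _ _).1
    · filter_upwards [hF.td] with j hj
      exact ((hQFN s (W j) hF.s0 hj.1).2 _ _).2.1
  · have hgr : Tendsto (fun j => gr (W j) (PT (W j) (x j) (ζ j)) (PT (W j) (x j) (ζ' j))) U (𝓝 (gr (χ '' UD) ζ₀ ζ₀')) := by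
      rw [Metric.tendsto_nhds]
      intro ε hε
      filter_upwards [hBLL s U W x χ hF ζ ζ' ζ₀ hζ₀ ζ₀' hζ₀' h hζ hζ' (ε / 2) (by positivity), hBLU s U W x χ hF ζ ζ' ζ₀ hζ₀ ζ₀' hζ₀' h hζ hζ' (ε / 2) (by positivity)] with j h1 h2
      rw [Real.dist_eq, abs_lt]
      constructor <;> linarith
    refine ⟨?_, fun _ => hgr⟩
    have h1 : bl (χ '' UD) ζ₀ ζ₀' = Real.exp (-gr (χ '' UD) ζ₀ ζ₀') := ((hQFN s _ hF.s0 hTD).1 ζ₀ hζ₀ ζ₀' hζ₀' h).2.2.2.2.2.1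
    rw [h1]
    refine ((Real.continuous_exp.tendsto _).comp hgr.neg).congr' ?_
    have hne : ∀ᶠ j in (U : Filter ℕ), ζ j ≠ ζ' j := by
      have h2 := (hζ.sub hζ').eventually_ne (sub_ne_zero.2 h)
      filter_upwards [h2] with j hj
      exact sub_ne_zero.1 hj
    filter_upwards [hF.td, hin, hin', hne] with j g1 g2 g3 g4
    have hcr : 0 < cr (W j) (x j) := (hTDF s (W j) g1.1 (x j) g1.2).2.1
    have hneP : PT (W j) (x j) (ζ j) ≠ PT (W j) (x j) (ζ' j) := by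
      unfold PT
      intro h5
      have h6 : (cr (W j) (x j) : ℂ) * ζ j = (cr (W j) (x j) : ℂ) * ζ' j := add_left_cancel h5
      have h7 : (cr (W j) (x j) : ℂ) ≠ 0 := by exact_mod_cast hcr.ne'
      exact g4 (mul_left_cancel₀ h7 h6)
    exact ((hQFN s (W j) hF.s0 g1.1).1 _ g2 _ g3 hneP).2.2.2.2.2.1.symm

end CVL
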